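import Pool.Agent.Y649.DG.Defs
import Mathlib

set_option autoImplicit false

/-! # Traces of products of three matrices by one determinant gate -/

namespace Pool.Agent.N599.OM.DG

open Finset Matrix
open Pool.Agent.Y649.DG (Fml)

/-- a small number for a finite family of matrices -/
theorem exists_small {n : ℕ} {κ : Type} [Finite κ] (X : κ → Matrix (Fin n) (Fin n) ℝ) :
    ∃ s : ℝ, 0 < s ∧ ∀ k, |(1 + (-s) • X k).det - (1 - s * (X k).trace)| < s / 2 := by
  have h1 : ∀ k, ∃ C : ℝ, ∀ r ∈ Set.Icc (-1 : ℝ) 0,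
      ‖(Matrix.det (1 + (Polynomial.X : Polynomial ℝ) •
        (X k).map Polynomial.C)).divX.divX.eval r‖ ≤ C := fun k =>
    isCompact_Icc.exists_bound_of_continuousOn (Polynomial.continuous _).continuousOn
  choose C hC using h1
  obtain ⟨B, hB⟩ := (Set.finite_range C).bddAbove
  have hB' : ∀ k, C k ≤ B := fun k => hB ⟨k, rfl⟩
  have hpos : 0 < 2 * (|B| + 1) := by positivity
  refine ⟨1 / (2 * (|B| + 1)), by positivity, fun x => ?_⟩
  obtain ⟨s, hs⟩ : ∃ s, s = 1 / (2 * (|B| + 1)) := ⟨_, rfl⟩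
  rw [← hs]
  have hs0 : 0 < s := by rw [hs]; positivity
  have hs1 : s ≤ 1 := by
    rw [hs, div_le_one hpos]
    have := abs_nonneg B
    linarith
  have hsB : s * |B| < 1 / 2 := by
    have h2 : s * (2 * (|B| + 1)) = 1 := by rw [hs]; field_simp
    nlinarith
  have hq := hC x (-s) ⟨by linarith, by linarith⟩
  obtain ⟨Q, hQ⟩ : ∃ Q, Q = (Matrix.det (1 + (Polynomial.X : Polynomial ℝ) •
        (X x).map Polynomial.C)).divX.divX.eval (-s) := ⟨_, rfl⟩
  rw [← hQ, Real.norm_eq_abs] at hq
  have hQB : |Q| ≤ |B| := (hq.trans (hB' x)).trans (le_abs_self B)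
  have hQs : |Q| * s < 1 / 2 := by
    calc |Q| * s ≤ |B| * s := mul_le_mul_of_nonneg_right hQB hs0.le
      _ = s * |B| := mul_comm _ _
      _ < 1 / 2 := hsB
  have hd : (1 + (-s) • X x).det - (1 - s * (X x).trace) = Q * s ^ 2 := by
    have h := Matrix.det_one_add_smul (-s) (X x)
    rw [← hQ] at h
    rw [h]
    ring
  rw [hd, abs_mul, abs_of_pos (by positivity : 0 < s ^ 2)]
  nlinarith

variable {n : ℕ} {ι : Type} {D : ι → Type} {w q : ℕ}

/-- the entries of the large determinant -/
noncomputable def ent (U M V : Fin n → Fin n → Fml ι D w q) :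
    (Fin n ⊕ (Fin n ⊕ Fin n)) → (Fin n ⊕ (Fin n ⊕ Fin n)) → Fml ι D w q
  | .inl i, .inl i' => .const (if i = i' then 1 else 0)
  | .inl i, .inr (.inl j) => U i j
  | .inl _, .inr (.inr _) => .const 0
  | .inr (.inl _), .inl _ => .const 0
  | .inr (.inl j), .inr (.inl j') => .const (if j = j' then 1 else 0)
  | .inr (.inl j), .inr (.inr k) => M j k
  | .inr (.inr k), .inl i => V k i
  | .inr (.inr _), .inr (.inl _) => .const 0
  | .inr (.inr k), .inr (.inr k') => .const (if k = k' then 1 else 0)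

/-- the matrix of the values -/
noncomputable def vals (U : Fin n → Fin n → Fml ι D w q) (x : ∀ i, D i) :
    Matrix (Fin n) (Fin n) ℝ :=
  Matrix.of fun a b => (U a b).eval x

theorem ent_det (U M V : Fin n → Fin n → Fml ι D w q) (x : ∀ i, D i) :
    (Matrix.of fun a b => (ent U M V a b).eval x).det =
      (1 + vals V x * vals U x * vals M x).det := by
  have h1 : (Matrix.of fun a b => (ent U M V a b).eval x) =
      Matrix.fromBlocks 1 (Matrix.fromCols (vals U x) 0) (Matrix.fromRows 0 (vals V x))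
        (Matrix.fromBlocks 1 (vals M x) 0 1) := by
    ext a b
    rcases a with a | a | a <;> rcases b with b | b | b <;>
      simp [ent, Fml.eval, Matrix.one_apply, vals]
  rw [h1, Matrix.det_fromBlocks_one₁₁, Matrix.fromRows_mul_fromCols]
  have h2 : (Matrix.fromBlocks 1 (vals M x) 0 1 -
      Matrix.fromBlocks ((0 : Matrix (Fin n) (Fin n) ℝ) * vals U x)
        ((0 : Matrix (Fin n) (Fin n) ℝ) * (0 : Matrix (Fin n) (Fin n) ℝ))
        (vals V x * vals U x) (vals V x * (0 : Matrix (Fin n) (Fin n) ℝ))) =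
      Matrix.fromBlocks 1 (vals M x) (-(vals V x * vals U x)) 1 := by
    ext a b
    rcases a with a | a <;> rcases b with b | b <;> simp
  rw [h2, Matrix.det_fromBlocks_one₁₁]
  congr 1
  rw [Matrix.neg_mul, sub_neg_eq_add]

/-- the formula: is the determinant less than `θ`? -/
theorem exists_tri (U M V : Fin n → Fin n → Fml ι D w q) (hU : ∀ a b, (U a b).size = 1)
    (hM : ∀ a b, (M a b).size = 1) (hV : ∀ a b, (V a b).size = 1) (θ : ℝ) :
    ∃ F : Fml ι D w q, F.size = 3 * n ^ 2 ∧
      ∀ x, (F.accepts x = true ↔ (1 + vals V x * vals U x * vals M x).det < θ) := by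
  let e : Fin (n + (n + n)) ≃ Fin n ⊕ (Fin n ⊕ Fin n) :=
    finSumFinEquiv.symm.trans (Equiv.sumCongr (Equiv.refl _) finSumFinEquiv.symm)
  let G : Fml ι D w q := .det (n + (n + n)) (fun a b => ent U M V (e a) (e b))
  refine ⟨.det 2 (![![.const θ, G], ![.const 1, .const 1]]), ?_, fun x => ?_⟩
  · have h1 : G.size = ∑ a, ∑ b, (ent U M V a b).size := by
      simp only [G, Fml.size]
      rw [← Equiv.sum_comp e]
      refine Finset.sum_congr rfl fun a _ => ?_
      exact Equiv.sum_comp e (fun b => (ent U M V (e a) b).size)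
    have h2 : ∑ a, ∑ b, (ent U M V a b).size = 3 * n ^ 2 := by
      simp only [Fintype.sum_sum_type, ent, Fml.size, hU, hM, hV]
      simp only [Finset.sum_const, Finset.card_univ, Fintype.card_fin, smul_eq_mul]
      ring
    simp only [Fml.size, Fin.sum_univ_two]
    simp only [Matrix.cons_val_zero, Matrix.cons_val_one, Fml.size]
    rw [h1, h2]
    ring
  · have h1 : G.eval x = (1 + vals V x * vals U x * vals M x).det := by
      simp only [G, Fml.eval]
      rw [← ent_det]
      exact Matrix.det_submatrix_equiv_self e (Matrix.of fun a b => (ent U M V a b).eval x)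
    have h2 : (Fml.det 2 (![![.const θ, G], ![.const 1, .const 1]]) : Fml ι D w q).eval x =
        θ - G.eval x := by
      simp [Fml.eval, Matrix.det_fin_two]
    unfold Fml.accepts
    rw [h2, h1, decide_eq_true_iff, sub_pos]

/-- the trace of the product of three matrices is compared with a number: if the values belong to a
finite family of matrices whose traces are at least `1 / 2` away from `θ` -/
theorem exists_trace {κ : Type} [Finite κ] (fU fM fV : κ → Fin n → Fin n → ℝ) (θ : ℝ)
    (U : ℝ → Fin n → Fin n → Fml ι D w q) (M V : Fin n → Fin n → Fml ι D w q)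
    (hU : ∀ s a b, (U s a b).size = 1)
    (hM : ∀ a b, (M a b).size = 1) (hV : ∀ a b, (V a b).size = 1) :
    ∃ F : Fml ι D w q, F.size = 3 * n ^ 2 ∧ ∀ (k : κ) (x : ∀ i, D i),
      (∀ s a b, (U s a b).eval x = -s * fU k a b) → (∀ a b, (M a b).eval x = fM k a b) →
      (∀ a b, (V a b).eval x = fV k a b) →
      (θ + 1 / 2 ≤ ∑ c, ∑ b, ∑ a, fV k c a * fU k a b * fM k b c → F.accepts x = true) ∧
      (∑ c, ∑ b, ∑ a, fV k c a * fU k a b * fM k b c ≤ θ - 1 / 2 → F.accepts x = false) := by
  obtain ⟨s, hs, h⟩ := exists_small (fun k : κ =>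
    (Matrix.of (fV k) : Matrix (Fin n) (Fin n) ℝ) * Matrix.of (fU k) * Matrix.of (fM k))
  obtain ⟨F, h1, h2⟩ := exists_tri (U s) M V (hU s) hM hV (1 - s * θ)
  refine ⟨F, h1, fun k x h3 h4 h5 => ?_⟩
  have e1 : vals V x * vals (U s) x * vals M x = (-s) •
      ((Matrix.of (fV k) : Matrix (Fin n) (Fin n) ℝ) * Matrix.of (fU k) * Matrix.of (fM k)) := by
    have a1 : vals V x = Matrix.of (fV k) := by
      ext a b; exact h5 a b
    have a2 : vals (U s) x = (-s) • (Matrix.of (fU k) : Matrix (Fin n) (Fin n) ℝ) := by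
      ext a b; exact h3 s a b
    have a3 : vals M x = Matrix.of (fM k) := by
      ext a b; exact h4 a b
    rw [a1, a2, a3, Matrix.mul_smul, Matrix.smul_mul]
  have e2 : ((Matrix.of (fV k) : Matrix (Fin n) (Fin n) ℝ) * Matrix.of (fU k) *
      Matrix.of (fM k)).trace = ∑ c, ∑ b, ∑ a, fV k c a * fU k a b * fM k b c := by
    simp only [Matrix.trace, Matrix.diag, Matrix.mul_apply, Finset.sum_mul, Matrix.of_apply]
  have h6 := h k
  rw [e2, abs_lt] at h6
  have h7 := h2 x
  rw [e1] at h7
  constructor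
  · intro h8
    rw [h7]
    nlinarith
  · intro h8
    rw [Bool.eq_false_iff, ne_eq, h7, not_lt]
    nlinarith

end Pool.Agent.N599.OM.DG
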