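import Pool.Agent.N599.OM.DGGen
import Pool.Agent.Y649.DG.Main
import Pool.Agent.Y649.DG.Gen
import Pool.Agent.Y638.RF.MinPlus

set_option autoImplicit false

/-! # Formulas with determinant gates: negative triangles -/

namespace Pool.Agent.N599.OM.DGMin

open Finset Pool.Agent.TH697.Form Pool.Agent.TH697.Row Pool.Agent.TH697.Form.MinPlus
open Pool.Agent.TH457.Ary.MinPlus (inRange_mono logb_q)
open Pool.Agent.Y638.RF.MinPlus (asks approx_mono)
open Pool.Agent.Y649.DG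
open Pool.Agent.Y649.DG (Fml)
open Pool.Agent.N599.OM.DG (exists_trace)

theorem lower {n c w : ℕ} (hn : 16 ≤ n) (hc : 1 ≤ c) (hw : 1 ≤ w) {Ω : Type} [Fintype Ω]
    (μ : Ω → ℝ) (hμ : IsProb μ) (s : ℕ)
    (F : Ω → Pool.Agent.Y649.DG.Fml (Option (Fin n)) (Item n) w (n ^ c))
    (hs : ∀ ω, (F ω).size ≤ s)
    (hF : ApproximatesOn μ (fun ω => (F ω).accepts) (InRange n (n + 1)) (shortcut n)) :
    (n : ℝ) ^ 4 ≤ 2 * 10 ^ 7 * c * w ^ 3 * s ^ 2 := by
  classical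
  have hn' : (16 : ℝ) ≤ n := by exact_mod_cast hn
  have hw' : (1 : ℝ) ≤ w := by exact_mod_cast hw
  have hc' : (1 : ℝ) ≤ c := by exact_mod_cast hc
  have hs0 : (0 : ℝ) ≤ s := Nat.cast_nonneg s
  by_cases hsm : n ^ 3 ≤ s
  · have h1 : (n : ℝ) ^ 3 ≤ s := by exact_mod_cast hsm
    have h2 : (n : ℝ) ^ 4 ≤ (s : ℝ) ^ 2 := by
      calc (n : ℝ) ^ 4 ≤ (n : ℝ) ^ 6 := pow_le_pow_right₀ (by linarith) (by norm_num)
        _ = ((n : ℝ) ^ 3) ^ 2 := by ring
        _ ≤ (s : ℝ) ^ 2 := pow_le_pow_left₀ (by positivity) h1 2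
    have h3 : (1 : ℝ) ≤ w ^ 3 := one_le_pow₀ hw'
    have h4 : (1 : ℝ) ≤ 2 * 10 ^ 7 * c * w ^ 3 :=
      one_le_mul_of_one_le_of_one_le (by linarith) h3
    have h5 : 0 ≤ (s : ℝ) ^ 2 := by positivity
    nlinarith
  obtain ⟨b, hb⟩ : ∃ b, b = Nat.log 2 n := ⟨_, rfl⟩
  have hb4 : 4 ≤ b := by
    have := Nat.log_mono_right (b := 2) hn
    rw [hb]
    rwa [show Nat.log 2 16 = 4 by decide +kernel] at this
  have hb4' : (4 : ℝ) ≤ b := by exact_mod_cast hb4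
  have hpow : 2 ^ b ≤ n := by
    rw [hb]
    exact Nat.pow_log_le_self 2 (by omega)
  have hpow2 : n < 2 ^ (b + 1) := by
    have := Nat.lt_pow_succ_log_self (b := 2) (by norm_num) n
    rw [hb]
    exact this
  have hM : 4 * n ^ 3 * (5 * s + 1) + 2 + s ≤ n ^ 8 := by
    have h1 : s < n ^ 3 := by omega
    have h2 : 4 * n ^ 3 * (5 * s + 1) ≤ 4 * n ^ 3 * (5 * n ^ 3) := Nat.mul_le_mul_left _ (by omega)
    have h3 : 4 * n ^ 3 * (5 * n ^ 3) = 20 * n ^ 6 := by ring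
    have h4 : n ^ 3 ≤ n ^ 6 := Nat.pow_le_pow_right (by omega) (by norm_num)
    have h5 : 256 * n ^ 6 ≤ n ^ 8 := by
      calc 256 * n ^ 6 ≤ (n * n) * n ^ 6 := Nat.mul_le_mul_right _ (by nlinarith)
        _ = n ^ 8 := by ring
    have h6 : 1 ≤ n ^ 6 := Nat.one_le_pow _ _ (by omega)
    omega
  have hlM : Real.logb 2 ((n ^ 8 : ℕ) : ℝ) ≤ 10 * b := by
    have := logb_q (c := 8) (by omega : 1 ≤ n) hb4 hpow2
    refine this.trans (le_of_eq ?_)
    push_cast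
    ring
  have hlq := logb_q (c := c) (by omega : 1 ≤ n) hb4 hpow2
  have hLL : 1 + 5 * Real.logb 2 ((n ^ 8 : ℕ) : ℝ) +
      ((w : ℝ) - 1) * Real.logb 2 ((n ^ c : ℕ) : ℝ) ≤ 51 * (c * w * b) := by
    have h0 : ((w : ℝ) - 1) * Real.logb 2 ((n ^ c : ℕ) : ℝ) ≤ (w - 1) * (5 / 4 * c * b) :=
      mul_le_mul_of_nonneg_left hlq (by linarith)
    have h1 : (b : ℝ) ≤ c * b := by nlinarith
    have h2 : 0 ≤ ((w : ℝ) - 1) * (c * b) := mul_nonneg (by linarith) (by positivity)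
    nlinarith
  have ht : (100 : ℝ) ≤ (n : ℝ) ^ 2 * b := by nlinarith
  have h := bound_sq bound (D := Item n) μ hμ F (InRange n (2 ^ b + 1)) (shortcut n)
    (approx_mono μ _ _ _ _ (fun x hx => inRange_mono (by omega) x hx) hF) s hs
    (Nat.one_le_pow _ _ (by omega)) hw (n ^ 3) (n ^ 8) hM 0 (by norm_num)
    ((univ : Finset (Fin n)).map Function.Embedding.some) (T := Fin n × Fin n × Fin b) (by
      intro a ha
      rw [mem_map] at ha
      obtain ⟨i, -, rfl⟩ := ha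
      exact asks hpow i)
    ((n : ℝ) ^ 2 * b) ht (by
      rw [Pool.Agent.TH457.Ary.MinPlus.card_T]) (51 * (c * w * b)) hLL
  rw [card_map, card_univ, Fintype.card_fin] at h
  have h5 : (b : ℝ) * (n : ℝ) ^ 4 ≤ b * (2 * 10 ^ 7 * c * w ^ 3 * s ^ 2) := by
    have h8 : 0 ≤ (b : ℝ) * (c * w ^ 3 * s ^ 2) := by positivity
    have e1 : (n : ℝ) ^ 2 * (n ^ 2 * b) = b * n ^ 4 := by ring
    rw [e1] at h
    nlinarith
  exact le_of_mul_le_mul_left h5 (by linarith)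

/-! ## the upper bound -/

theorem upper (n W w q : ℕ) :
    ∃ F : Pool.Agent.Y649.DG.Fml (Option (Fin n)) (Item n) w q, F.size = 3 * n ^ 2 ∧
      ∀ x, InRange n W x → F.accepts x = shortcut n x := by
  classical
  obtain ⟨Z, hZ⟩ : ∃ Z : ℝ, Z = (n : ℝ) ^ 3 + 1 := ⟨_, rfl⟩
  have hZ1 : 1 ≤ Z := by
    rw [hZ]
    have : (0 : ℝ) ≤ (n : ℝ) ^ 3 := by positivity
    linarith
  have hZ0 : 0 < Z := by linarith
  obtain ⟨F, h1, h2⟩ := exists_trace (w := w) (q := q) (D := Item n)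
    (κ := (Fin n → Fin n → Fin (W + 1)) × (Fin n → Fin n → Fin (W + 1)) ×
      (Fin n → Fin n → Fin (W + 1)))
    (fun k i a => (Z ^ (k.1 i a).val)⁻¹) (fun k a j => (Z ^ (k.2.1 a j).val)⁻¹)
    (fun k j i => Z ^ (k.2.2 i j).val) ((n : ℝ) ^ 3 + 1 / 2)
    (fun s i a => .item (some i) (fun p => -s * (Z ^ (p.1 a))⁻¹))
    (fun a j => .item none (fun B => (Z ^ (B a j))⁻¹))
    (fun j i => .item (some i) (fun p => Z ^ (p.2 j)))
    (fun _ _ _ => rfl) (fun _ _ => rfl) (fun _ _ => rfl)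
  refine ⟨F, h1, fun x hx => ?_⟩
  obtain ⟨hB, hA⟩ := hx
  obtain ⟨h3, h4⟩ := h2 (fun i a => ⟨(x (some i)).1 a, by have := (hA i a).1.2; omega⟩,
    fun a j => ⟨x none a j, by have := (hB a j).2; omega⟩,
    fun i j => ⟨(x (some i)).2 j, by have := (hA i j).2.2; omega⟩) x
    (fun s a b => rfl) (fun a b => rfl) (fun a b => rfl)
  simp only at h3 h4
  cases hx : shortcut n x with
  | true =>
    apply h3
    unfold shortcut at hx
    rw [decide_eq_true_iff] at hx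
    obtain ⟨i, k, j, h⟩ := hx
    have hnn : ∀ j k i, (0 : ℝ) ≤ Z ^ ((x (some i)).2 j) * (Z ^ ((x (some i)).1 k))⁻¹ *
        (Z ^ (x none k j))⁻¹ := fun j k i => by positivity
    have e1 : Z ≤ Z ^ ((x (some i)).2 j) * (Z ^ ((x (some i)).1 k))⁻¹ *
        (Z ^ (x none k j))⁻¹ := by
      rw [mul_assoc, ← mul_inv, ← pow_add, ← div_eq_mul_inv, le_div_iff₀ (by positivity),
        ← pow_succ']
      exact pow_le_pow_right₀ hZ1 (by omega)
    have e2 : Z ≤ ∑ c, ∑ b, ∑ a, Z ^ ((x (some a)).2 c) * (Z ^ ((x (some a)).1 b))⁻¹ *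
        (Z ^ (x none b c))⁻¹ := by
      calc Z ≤ _ := e1
        _ ≤ ∑ a, Z ^ ((x (some a)).2 j) * (Z ^ ((x (some a)).1 k))⁻¹ * (Z ^ (x none k j))⁻¹ :=
          Finset.single_le_sum (f := fun a => Z ^ ((x (some a)).2 j) *
            (Z ^ ((x (some a)).1 k))⁻¹ * (Z ^ (x none k j))⁻¹)
            (fun a _ => hnn j k a) (Finset.mem_univ i)
        _ ≤ ∑ b, ∑ a, Z ^ ((x (some a)).2 j) * (Z ^ ((x (some a)).1 b))⁻¹ *
            (Z ^ (x none b j))⁻¹ :=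
          Finset.single_le_sum (f := fun b => ∑ a, Z ^ ((x (some a)).2 j) *
            (Z ^ ((x (some a)).1 b))⁻¹ * (Z ^ (x none b j))⁻¹)
            (fun b _ => Finset.sum_nonneg fun a _ => hnn j b a) (Finset.mem_univ k)
        _ ≤ _ :=
          Finset.single_le_sum (f := fun c => ∑ b, ∑ a, Z ^ ((x (some a)).2 c) *
            (Z ^ ((x (some a)).1 b))⁻¹ * (Z ^ (x none b c))⁻¹)
            (fun c _ => Finset.sum_nonneg fun b _ => Finset.sum_nonneg fun a _ => hnn c b a)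
            (Finset.mem_univ j)
    rw [hZ] at e2 ⊢
    linarith
  | false =>
    apply h4
    unfold shortcut at hx
    rw [decide_eq_false_iff_not] at hx
    push Not at hx
    have e1 : ∀ c b a, Z ^ ((x (some a)).2 c) * (Z ^ ((x (some a)).1 b))⁻¹ *
        (Z ^ (x none b c))⁻¹ ≤ 1 := by
      intro c b a
      rw [mul_assoc, ← mul_inv, ← pow_add, ← div_eq_mul_inv, div_le_one (by positivity)]
      exact pow_le_pow_right₀ hZ1 (hx a b c)
    have e2 : ∑ c : Fin n, ∑ b : Fin n, ∑ a : Fin n, Z ^ ((x (some a)).2 c) *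
        (Z ^ ((x (some a)).1 b))⁻¹ * (Z ^ (x none b c))⁻¹ ≤
        ∑ c : Fin n, ∑ b : Fin n, ∑ a : Fin n, (1 : ℝ) :=
      Finset.sum_le_sum fun c _ => Finset.sum_le_sum fun b _ => Finset.sum_le_sum fun a _ => e1 c b a
    have e3 : ∑ c : Fin n, ∑ b : Fin n, ∑ a : Fin n, (1 : ℝ) = (n : ℝ) ^ 3 := by
      simp only [Finset.sum_const, Finset.card_univ, Fintype.card_fin, nsmul_eq_mul, mul_one]
      ring
    rw [e3] at e2
    linarith

end Pool.Agent.N599.OM.DGMin
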